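import Pool.Agent.H83.Dim.Conv

/-! # Homological dimensions of `L¹(G)` for non-compact `G` (MP_df984a_an, Q1: yes)

For every non-compact locally compact group `G`,
`db L¹(G) = dg L¹(G) = ds L¹(G) = dh_{L¹(G)} ℂ = ∞`.

Definitions are in `Pool/Agent/H83/Dim/Stmt.lean` (modules, resolutions, dimensions, the
augmentation module), `Pool/Agent/H83/Dim/Defs.lean` (the convolution algebra `L1Alg μ`) and
`Pool/Agent/H83/Dim/Tr.lean` (left translation).

Idea of the proof: pick a sequence `r_t` escaping to infinity very fast and put
`a_j = ⋯ r_2^{j_2} r_1^{j_1} r_0^{j_0}` for `j` in the group `Γ = (ℕ, xor)` with binary digits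
`j_t`. The `a_j` behave like a translation action of the locally finite (hence amenable) group
`Γ` up to finitely many values. From a finite projective resolution of `ℂ` one constructs a
bounded contraction of the `ℓ¹` bar complex of `Γ` in one degree, averages it over `Γ`, and
descends to degree `0`, where it would give a non-zero invariant vector in `ℓ¹(Γ)`. -/

namespace Pool.Agent.Results.MP_df984a_an.InfiniteDimension

open MeasureTheory Pool.Agent.H83 Pool.Agent.H83.Dim Pool.Agent.H83.HD

universe u

/-- For every non-compact locally compact (Hausdorff) group `G` with left Haar measure `μ`, the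
bidimension, the left global dimension and the left small dimension of `L¹(G)` and the
homological dimension of the augmentation module `ℂ` are all infinite. -/
theorem result (G : Type u) [Group G] [TopologicalSpace G] [IsTopologicalGroup G]
    [LocallyCompactSpace G] [T2Space G] [MeasurableSpace G] [BorelSpace G]
    (μ : Measure G) [μ.IsHaarMeasure] [μ.Regular] (hG : ¬ CompactSpace G) :
    HD.db (L1Alg μ) = ⊤ ∧ HD.dg (L1Alg μ) = ⊤ ∧ HD.ds (L1Alg μ) = ⊤ ∧
      HD.dh (HD.augMod μ) = ⊤ := by
  have : NoncompactSpace G := not_compactSpace_iff.1 hG
  exact ⟨db_L1 μ, dg_L1 μ, ds_L1 μ, dh_augMod μ⟩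

end Pool.Agent.Results.MP_df984a_an.InfiniteDimension
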